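import Pool.Agent.Q173.OS.Bad

/-!
# The criterion
-/

set_option autoImplicit false

open Module TensorProduct

namespace Pool.Agent.Q173.OS

universe u v w

open Pool.Agent.Y143 Pool.Agent.Y163.MW Pool.Agent.Y163.MW.Coh Pool.Agent.Y136.UB Pool.Agent.H914
  Pool.Agent.Q57.WM

section test

variable {Ω : Type w} [Field Ω] [CharZero Ω] [IsAlgClosed Ω] {R : Coh.{v, w} Ω} {q : ℕ}

lemma IsTest.unit' (h : IsTest R q) (hq : 1 < q) :
    ∃ u ∈ R.exc q 0 0, u ≠ 0 ∧ R.N u = 0 := by
  obtain ⟨u, hu, hu0, hN, hF⟩ := h.unit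
  refine ⟨u, ?_, hu0, hN⟩
  have h1 : IsWeilNumber q ((0 : ℕ) + 0 : ℤ) (1 : Ω) := by
    have := weil_natPow (Ω := Ω) (by omega : 0 < q) 0
    simpa using this
  refine Submodule.mem_iSup_of_mem 1 (Submodule.mem_iSup_of_mem h1 ?_)
  refine Submodule.mem_inf.2 ⟨hu, mem_gen.2 ⟨1, ?_⟩⟩
  rw [pow_one, LinearMap.sub_apply, Module.algebraMap_end_apply, hF, one_smul, sub_self]

lemma IsTest.vec (h : IsTest R q) (hq : 1 < q) (hR : R.IsCoh q) :
    ∃ u ∈ R.exc q 1 1, R.N u ≠ 0 ∧ R.N (R.N u) = 0 := by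
  obtain ⟨x, hx, hx0⟩ := h.ne
  obtain ⟨c, y, hy, hy0⟩ : ∃ (c : ℤ), ∃ y ∈ R.exc q 1 c, R.N y ≠ 0 := by
    by_contra hcon
    push Not at hcon
    apply hx0
    have h1 : R.gr 1 ≤ LinearMap.ker R.N := by
      rw [← iSup_exc hR 1]
      exact iSup_le fun c y hy => LinearMap.mem_ker.2 (hcon c y hy)
    exact LinearMap.mem_ker.1 (h1 hx)
  have hC := (mwPure_iff hq hR 1).1 (h.pure 1)
  have h2 : R.N (R.N y) = 0 := h.sq y (exc_le 1 c hy)
  have h3 : c = 1 := by
    by_contra hne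
    rcases lt_or_gt_of_ne hne with hlt | hgt
    · -- `c ≤ 0`
      obtain ⟨a, ha⟩ : ∃ a : ℕ, c - 2 = -(a : ℤ) := ⟨(2 - c).toNat, by omega⟩
      have h4 := N_exc hq hR 1 c y hy
      rw [ha] at h4
      obtain ⟨z, hz, hz1⟩ := (hC a).2 _ h4
      apply hy0
      rw [← hz1]
      obtain ⟨b, rfl⟩ : ∃ b, a = b + 2 := ⟨a - 2, by omega⟩
      rw [pow_add, Module.End.mul_apply]
      have : (R.N ^ 2) z = 0 := by
        rw [pow_two, Module.End.mul_apply]
        exact h.sq z (exc_le 1 _ hz)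
      rw [this, map_zero]
    · obtain ⟨b, rfl⟩ : ∃ b : ℕ, c = ((b + 2 : ℕ) : ℤ) := ⟨(c - 2).toNat, by omega⟩
      apply hy0
      have h4 := (hC (b + 2)).1 y hy ?_
      · rw [h4, map_zero]
      · rw [pow_add, Module.End.mul_apply, pow_two, Module.End.mul_apply, h2, map_zero]
  subst h3
  exact ⟨y, hy, hy0, h2⟩

end test

section

variable {K : Type u} [Field K] {Ω : Type w} [Field Ω] [CharZero Ω] [IsAlgClosed Ω]
  {T : Theory.{u, v, w} K Ω} {q : ℕ}

/-- A string of length `l ≤ A` of `H^j(X)` yields a string of length `0` of `H^(j + l)(X × E^A)`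
with the same centre. -/
lemma string_stack (hq : 1 < q) (hT : T.IsLocal q) {X E : SmVar.{u} K} (hE : IsTest (T.H E) q) :
    ∀ (A : ℕ) (j l : ℕ) (c : ℤ), HasString (T.H X) q j c l → l ≤ A →
      HasString (T.H (stack X E A)) q (j + l) c 0 := by
  obtain ⟨e, he, he0, he1⟩ := hE.unit' hq
  obtain ⟨u, hu, hu0, hu1⟩ := hE.vec hq (hT.coh E)
  have hNu : (T.H E).N u ∈ (T.H E).exc q 1 (-1) := by
    have := N_exc hq (hT.coh E) 1 1 u hu
    rwa [show (1 : ℤ) - 2 = -1 by norm_num] at this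
  -- a string of length `l` of `X` yields one of length `l - i` of `X × E^A`, `i ≤ A`
  have key : ∀ (A i j l : ℕ) (c : ℤ), HasString (T.H X) q j c (l + i) → i ≤ A →
      HasString (T.H (stack X E A)) q (j + i) c l := by
    intro A
    induction A with
    | zero =>
      intro i j l c h hi
      obtain rfl : i = 0 := by omega
      exact h
    | succ A ih =>
      intro i j l c h hi
      obtain ⟨κ, hκ⟩ := hT.kunneth (stack X E A) E
      rcases Nat.lt_or_ge A i with h1 | h1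
      · obtain ⟨i, rfl⟩ : ∃ i', i = i' + 1 := ⟨i - 1, by omega⟩
        have h2 := ih i j (l + 1) c (by rwa [show l + 1 + i = l + (i + 1) by ring]) (by omega)
        exact h2.down hq (hT.coh _) hκ hu hNu hu0 hu1
      · have h2 := ih i j l c h h1
        have h3 := h2.keep hq hκ he he0 he1
        rwa [add_zero, add_zero] at h3
  intro A j l c h hl
  exact key A l j 0 c (by rwa [zero_add]) hl

/-- Powers. -/
lemma string_pow (hq : 1 < q) (hT : T.IsLocal q) {Y : SmVar.{u} K} {j : ℕ} {c : ℤ}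
    (h : HasString (T.H Y) q j c 0) (n : ℕ) :
    HasString (T.H (pow Y n)) q ((n + 1) * j) ((n + 1) * c) 0 := by
  induction n with
  | zero =>
    have h' : HasString (T.H (pow Y 0)) q j c 0 := h
    simpa using h'
  | succ n ih =>
    obtain ⟨κ, hκ⟩ := hT.kunneth Y (pow Y n)
    obtain ⟨u, hu, hu0, hu1⟩ := ih
    rw [Nat.cast_zero, add_zero] at hu
    rw [zero_add, pow_one] at hu0
    rw [pow_zero, Module.End.one_apply] at hu1
    have h3 : HasString (T.H (pow Y (n + 1))) q (j + (n + 1) * j) (c + (n + 1) * c) 0 :=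
      h.keep hq hκ hu hu1 hu0
    rwa [show j + (n + 1) * j = (n + 1 + 1) * j by ring,
      show c + ((n : ℤ) + 1) * c = (((n + 1 : ℕ) : ℤ) + 1) * c by push_cast; ring] at h3

/-- Adapted bases for `X × E^a`. -/
lemma adp_stack (hq : 1 < q) (hT : T.IsLocal q) {X E : SmVar.{u} K} {I J : Type} [Finite I]
    [Finite J] {a : I → ℤ} {b : J → ℤ} (hX : (T.H X).Adp q a a) (hE : (T.H E).Adp q b b) (A : ℕ) :
    ∃ (I' : Type) (_ : Finite I') (a' : I' → ℤ), (T.H (stack X E A)).Adp q a' a' := by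
  induction A with
  | zero => exact ⟨I, inferInstance, a, hX⟩
  | succ A ih =>
    obtain ⟨I', _, a', ha'⟩ := ih
    obtain ⟨κ, hκ⟩ := hT.kunneth (stack X E A) E
    exact ⟨I' × J, inferInstance, _, ha'.prod hE (by omega) hκ⟩

lemma adp_of_pure (hq : 1 < q) {R : Coh.{v, w} Ω} (hR : R.IsCoh q) (h : ∀ m, R.MWPure q m) :
    ∃ (I : Type) (_ : Finite I) (a : I → ℤ), R.Adp q a a := by
  obtain ⟨S⟩ := exists_strings hq hR
  have h1 := (mw_iff hq hR S).1 h
  have h2 : S.ct = S.wt := by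
    funext p
    unfold Strings.ct Strings.wt
    rw [h1 p.1]
  refine ⟨_, inferInstance, S.ct, ?_⟩
  have h3 := adp_strings S
  rwa [← h2] at h3

/-- If `X` satisfies the conjecture, then the weights of the invariants are at most the degree. -/
theorem bound_self (hq : 1 < q) (hT : T.IsLocal q) {X : SmVar.{u} K}
    (h : ∀ m, (T.H X).MWPure q m) : InvBound (T.H X) q 0 := by
  obtain ⟨I, _, a, ha⟩ := adp_of_pure hq (hT.coh X) h
  exact Adp.invBound hq (hT.coh _) ha

/-- If `X` satisfies the conjecture, then the weights of the invariants of all the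
`(X × E^A)^(n + 1)` are at most the degree. -/
theorem bound_stack (hq : 1 < q) (hT : T.IsLocal q) {X E : SmVar.{u} K}
    (hE : IsTest (T.H E) q) (h : ∀ m, (T.H X).MWPure q m) (A n : ℕ) :
    InvBound (T.H (pow (stack X E A) n)) q 0 := by
  obtain ⟨I, _, a, ha⟩ := adp_of_pure hq (hT.coh X) h
  obtain ⟨J, _, b, hb⟩ := adp_of_pure hq (hT.coh E) hE.pure
  obtain ⟨I', _, a', ha'⟩ := adp_stack hq hT ha hb A
  exact Adp.invBound hq (hT.coh _) (adp_pow hT hq _ ha' n)

/-- If `X` satisfies the conjecture, then the weights of the invariants of all the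
`(X × X)^(n + 1)` are at most the degree. -/
theorem bound_square (hq : 1 < q) (hT : T.IsLocal q) {X : SmVar.{u} K}
    (h : ∀ m, (T.H X).MWPure q m) (n : ℕ) : InvBound (T.H (pow (X.prod X) n)) q 0 := by
  obtain ⟨I, _, a, ha⟩ := adp_of_pure hq (hT.coh X) h
  obtain ⟨κ, hκ⟩ := hT.kunneth X X
  exact Adp.invBound hq (hT.coh _) (adp_pow hT hq _ (ha.prod ha (by omega) hκ) n)

/-- The criterion with the products with powers of `E`. -/
theorem pure_of_stack (hq : 1 < q) (hT : T.IsLocal q) {X E : SmVar.{u} K}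
    (hE : IsTest (T.H E) q) {m k : ℕ} (hk : WMAbove (T.H X) q m (k + 1)) (n : ℕ)
    (h : ∀ a ≤ k, InvBoundDeg (T.H (pow (stack X E k) n)) q ((n + 1) * (m + a)) n) :
    (T.H X).MWPure q m := by
  by_contra hcon
  obtain ⟨c, l, hc, hcl, hs⟩ := exists_bad hq (hT.coh X) hcon
  replace hcl := hcl _ hk
  have h1 := string_pow hq hT (string_stack hq hT hE k m l c hs (by push_cast at hcl; omega)) n
  have h2 := h1.not_bound hq (hT.coh _) (h l (by push_cast at hcl; omega))
  nlinarith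

/-- The criterion with the square. -/
theorem pure_of_square (hq : 1 < q) (hT : T.IsLocal q) {X : SmVar.{u} K} {m : ℕ} (n : ℕ)
    (h : InvBoundDeg (T.H (pow (X.prod X) n)) q ((n + 1) * (m + m)) (2 * n + 1)) :
    (T.H X).MWPure q m := by
  by_contra hcon
  obtain ⟨c, l, hc, -, hs⟩ := exists_bad hq (hT.coh X) hcon
  obtain ⟨κ, hκ⟩ := hT.kunneth X X
  have h1 := string_pow hq hT (hs.square hq (hT.coh X) hκ) n
  have h2 := h1.not_bound hq (hT.coh _) h
  nlinarith

lemma InvBound.mono {R : Coh.{v, w} Ω} {B B' : ℤ} (h : InvBound R q B) (hB : B ≤ B') :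
    InvBound R q B' := fun j α x hx h0 hN hF w hw => (h j α x hx h0 hN hF w hw).trans (by omega)

lemma dim_pow (Y : SmVar.{u} K) (n : ℕ) : (pow Y n).dim = (n + 1) * Y.dim := by
  induction n with
  | zero => simp [pow]
  | succ n ih =>
    have h : (pow Y (n + 1)).dim = Y.dim + (pow Y n).dim := rfl
    rw [h, ih]
    ring

/-- Weights of the invariants are at most `j + o(dim Y)`. -/
def Sublinear (T : Theory.{u, v, w} K Ω) (q : ℕ) : Prop :=
  ∀ ε : ℝ, 0 < ε → ∃ D : ℕ, ∀ Y : SmVar.{u} K, D ≤ Y.dim → InvBound (T.H Y) q ⌊ε * Y.dim⌋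

theorem sublinear_iff (hq : 1 < q) (hT : T.IsLocal q) :
    (∀ X : SmVar.{u} K, 1 ≤ X.dim → ∀ m, (T.H X).MWPure q m) ↔ Sublinear T q := by
  constructor
  · intro h ε hε
    refine ⟨1, fun Y hY => (bound_self hq hT (h Y hY)).mono ?_⟩
    exact Int.floor_nonneg.2 (by positivity)
  · intro h X hX m
    have hd : (0 : ℝ) < X.dim := by exact_mod_cast hX
    obtain ⟨D, hD⟩ := h (1 / (2 * X.dim)) (by positivity)
    refine pure_of_square hq hT D ?_
    have hdim : (pow (X.prod X) D).dim = (D + 1) * (X.dim + X.dim) := dim_pow _ _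
    have h1 := hD (pow (X.prod X) D) (by rw [hdim]; nlinarith)
    refine h1.mono ?_ _
    rw [hdim]
    have h2 : (1 / (2 * (X.dim : ℝ))) * (((D + 1) * (X.dim + X.dim) : ℕ) : ℝ) = ((D + 1 : ℕ) : ℝ) := by
      push_cast
      field_simp
      ring
    rw [h2, Int.floor_natCast]
    push_cast
    omega

end

end Pool.Agent.Q173.OS
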