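import Pool.Agent.Q173.OS.Vec

/-!
# Strings which are not centred; powers; the bounds
-/

set_option autoImplicit false

open Module TensorProduct

namespace Pool.Agent.Q173.OS

universe u v w

open Pool.Agent.Y143 Pool.Agent.Y163.MW Pool.Agent.Y163.MW.Coh Pool.Agent.Y136.UB Pool.Agent.H914
  Pool.Agent.Q57.WM

section lin

variable {K : Type u} [Field K] {V : Type v} [AddCommGroup V] [Module K V]
  {gr : ℤ → Submodule K V} {N : Module.End K V}

lemma string_lin (l : ℕ) (t : ℤ) :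
    ∑ i : Fin (l + 1), (t - 2 * (i : ℕ)) = ((l : ℤ) + 1) * (t - l) := by
  rw [Fin.sum_univ_eq_sum_range (fun i => (t - 2 * (i : ℤ))) (l + 1)]
  have h : ∀ n : ℕ, ∑ i ∈ Finset.range n, (t - 2 * (i : ℤ)) = n * (t - (n - 1)) := by
    intro n
    induction n with
    | zero => simp
    | succ n ih =>
      rw [Finset.sum_range_succ, ih]
      push_cast
      ring
  rw [h]
  push_cast
  ring

/-- If the weights are symmetric and not all strings are centred, there is a string with positive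
centre. -/
lemma exists_pos (S : Strings gr N) (hgr : iSupIndep gr)
    (hsym : ∀ c, finrank K (gr c) = finrank K (gr (-c))) (h : ¬ ∀ s, S.top s = S.len s) :
    ∃ s, (S.len s : ℤ) < S.top s := by
  by_contra hcon
  push Not at hcon h
  have h1 := weight_sum_neg S hgr hsym id
  have h2 : ∑ p, S.wt p = ∑ s, ((S.len s : ℤ) + 1) * (S.top s - S.len s) := by
    rw [Fintype.sum_sigma]
    exact Finset.sum_congr rfl fun s _ => string_lin (S.len s) (S.top s)
  have h3 : ∑ p, S.wt p = 0 := by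
    simp only [id, Finset.sum_neg_distrib] at h1
    omega
  obtain ⟨s, hs⟩ := h
  have h4 : ∑ s, ((S.len s : ℤ) + 1) * (S.len s - S.top s) = 0 := by
    rw [h2] at h3
    rw [← neg_eq_zero, ← Finset.sum_neg_distrib, ← h3]
    refine Finset.sum_congr rfl fun s _ => ?_
    ring
  have h5 := (Finset.sum_eq_zero_iff_of_nonneg (fun s _ => mul_nonneg (by positivity)
    (sub_nonneg.2 (hcon s)))).1 h4 s (Finset.mem_univ s)
  rcases mul_eq_zero.1 h5 with h6 | h6
  · have : (0 : ℤ) < (S.len s : ℤ) + 1 := by positivity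
    omega
  · exact hs (by omega)

end lin

section

variable {Ω : Type w} [Field Ω] [CharZero Ω] {R R' R'' : Coh.{v, w} Ω} {q : ℕ}

/-- If the monodromy-weight conjecture fails for `H^m`, there is a string with positive centre; if
it holds above `k`, this string is in the range up to `k`. -/
lemma exists_bad [IsAlgClosed Ω] (hq : 1 < q) (hR : R.IsCoh q) {m : ℕ}
    (h : ¬ R.MWPure q m) : ∃ (c : ℤ) (l : ℕ), 0 < c ∧ (∀ k, WMAbove R q m k → c + l ≤ k) ∧
      HasString R q m c l := by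
  have := hR.finite
  have hi := internal_comap (indep_exc_deg hq hR m) (iSup_exc hR m)
  have hN : ∀ (c : ℤ), ∀ x ∈ (R.exc q m c).comap (R.gr m).subtype,
      R.N.restrict (hR.N_gr m) x ∈ (R.exc q m (c - 2)).comap (R.gr m).subtype :=
    fun c x hx => N_exc hq hR m c x hx
  obtain ⟨S⟩ := Pool.Agent.Y153.MW.stA Ω (R.gr m) _ (R.N.restrict (hR.N_gr m)) hi hN
  rw [mwPure_iff hq hR, ← centred_comap (hR.N_gr m) (exc_le m),
    Pool.Agent.Y614.MW.stF Ω (R.gr m) _ _ hi S] at h
  obtain ⟨s, hs⟩ := exists_pos S hi.submodule_iSupIndep (fun c => by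
    rw [finrank_comap (exc_le m c), finrank_comap (exc_le m (-c)), finrank_exc_neg hq hR]) h
  have hk' : ∀ k, WMAbove R q m k → S.top s ≤ k := by
    intro k hk
    have := (pureAbove_iff hi S k).1 ((pureAbove_comap (hR.N_gr m) (exc_le m) k).2 hk) s
    omega
  have hpow : ∀ (k : ℕ) (x : R.gr m), (((R.N.restrict (hR.N_gr m)) ^ k) x : R.V) =
      (R.N ^ k) x := by
    intro k x
    rw [Module.End.pow_restrict]
    rfl
  have hb : ∀ (k : ℕ) (hk : k < S.len s + 1),
      ((R.N.restrict (hR.N_gr m)) ^ k) (S.b ⟨s, 0⟩) = S.b ⟨s, ⟨k, hk⟩⟩ := by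
    intro k
    induction k with
    | zero => intro _; rfl
    | succ k ih =>
      intro hk
      rw [pow_succ', Module.End.mul_apply, ih (by omega)]
      exact S.succ s ⟨k, by omega⟩
  refine ⟨S.top s - S.len s, S.len s, by omega, fun k hk => by have := hk' k hk; omega,
    (S.b ⟨s, 0⟩ : R.V), ?_, ?_, ?_⟩
  · have h1 := S.mem s 0
    have h2 : (S.b ⟨s, 0⟩ : R.V) ∈ R.exc q m (S.top s - 2 * ((0 : Fin (S.len s + 1)) : ℕ)) := h1
    rwa [show S.top s - 2 * (((0 : Fin (S.len s + 1)) : ℕ) : ℤ) = S.top s - S.len s + S.len s by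
      simp] at h2
  · rw [← hpow, pow_succ', Module.End.mul_apply, hb (S.len s) (by omega)]
    have h3 := S.last s
    have h4 : (⟨S.len s, by omega⟩ : Fin (S.len s + 1)) = Fin.last (S.len s) := rfl
    rw [h4, h3]
    rfl
  · rw [← hpow, hb (S.len s) (by omega)]
    intro h5
    exact S.b.ne_zero _ (Subtype.ext h5)

/-- A string of length `0` and centre `c` yields an eigenvector of `F` of weight `j + c` in the
kernel of `N`. -/
lemma HasString.eigen [IsAlgClosed Ω] (hq : 1 < q) (hR : R.IsCoh q) {j : ℕ} {c : ℤ}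
    (h : HasString R q j c 0) : ∃ (α : Ω) (x : R.V), x ∈ R.gr j ∧ x ≠ 0 ∧ R.N x = 0 ∧
      R.F x = α • x ∧ IsWeilNumber q (j + c) α := by
  have := hR.finite
  obtain ⟨v, hv, h0, h1⟩ := h
  rw [zero_add, pow_one] at h0
  rw [pow_zero, Module.End.one_apply] at h1
  rw [Nat.cast_zero, add_zero] at hv
  let S : Submodule Ω R.V := R.exc q j c ⊓ LinearMap.ker R.N
  have hS : ∀ x ∈ S, R.F x ∈ S := by
    intro x hx
    obtain ⟨hx1, hx2⟩ := Submodule.mem_inf.1 hx
    refine Submodule.mem_inf.2 ⟨F_exc hR j c x hx1, ?_⟩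
    rw [LinearMap.mem_ker] at hx2 ⊢
    rw [hR.N_F x, hx2, map_zero, smul_zero]
  have hnt : Nontrivial S := ⟨⟨⟨v, Submodule.mem_inf.2 ⟨hv, LinearMap.mem_ker.2 h0⟩⟩, 0,
    fun h => h1 (congrArg Subtype.val h)⟩⟩
  obtain ⟨α, hα⟩ := Module.End.exists_eigenvalue (R.F.restrict hS)
  obtain ⟨x, hx⟩ := hα.exists_hasEigenvector
  have hx1 := (Submodule.mem_inf.1 x.2)
  have hFx : R.F x = α • (x : R.V) := congrArg Subtype.val hx.apply_eq_smul
  have hx0 : (x : R.V) ≠ 0 := fun h => hx.2 (Subtype.ext h)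
  exact ⟨α, x, exc_le j c hx1.1, hx0, LinearMap.mem_ker.1 hx1.2, hFx,
    eigen_exc hq hR hx1.1 hx0 hFx⟩

lemma HasString.not_bound [IsAlgClosed Ω] (hq : 1 < q) (hR : R.IsCoh q) {j : ℕ} {c : ℤ}
    (h : HasString R q j c 0) {B : ℤ} (hB : InvBoundDeg R q j B) : c ≤ B := by
  obtain ⟨α, x, hx, hx0, hN, hF, hw⟩ := h.eigen hq hR
  have := hB α x hx hx0 hN hF _ hw
  omega

/-- The bound for the weights in terms of the weight decomposition. -/
lemma invBound_of (hq : 1 < q) (hR : R.IsCoh q) {j : ℕ} {B : ℤ}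
    (h : ∀ (c : ℤ) (x : R.V), B < c → x ∈ R.exc q j c → R.N x = 0 → x = 0) :
    InvBoundDeg R q j B := by
  intro α x hx hx0 hN hF w hw
  by_contra hcon
  push Not at hcon
  refine hx0 (h (w - j) x (by omega) ?_ hN)
  refine Submodule.mem_iSup_of_mem α (Submodule.mem_iSup_of_mem ?_ ?_)
  · rwa [show (j : ℤ) + (w - j) = w by ring]
  · refine Submodule.mem_inf.2 ⟨hx, mem_gen.2 ⟨1, ?_⟩⟩
    rw [pow_one, LinearMap.sub_apply, Module.algebraMap_end_apply, hF, sub_self]

/-- If the weights are those predicted by the monodromy filtration, the invariants have weights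
`≤ j`. -/
lemma Adp.invBound (hq : 1 < q) (hR : R.IsCoh q) {I : Type} [Finite I] {a : I → ℤ}
    (H : R.Adp q a a) : InvBound R q 0 := by
  have := Fintype.ofFinite I
  obtain ⟨b, e, h, hs, hb⟩ := H
  intro j
  refine invBound_of hq hR fun c x hc hx hN => ?_
  have h1 : x ∈ R.tot q c := exc_le_tot j c hx
  rw [gr_eq_span (indep_tot hq hR) b a hb c] at h1
  obtain ⟨n, rfl⟩ : ∃ n : ℕ, c = n + 1 := ⟨(c - 1).toNat, by omega⟩
  have h2 : h x = (((n + 1 : ℕ) : ℕ) : Ω) • x := by
    clear hN hx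
    induction h1 using Submodule.span_induction with
    | mem y hy =>
      obtain ⟨i, hi, rfl⟩ := hy
      rw [hs.wt, show a i = (n : ℤ) + 1 from hi]
      push_cast
      rfl
    | zero => simp
    | add y z _ _ hy hz => rw [map_add, hy, hz, smul_add]
    | smul t y _ hy => rw [map_smul, hy, smul_comm]
  refine (Pool.Agent.Y141.MW.stL Ω R.V R.N I b a e h hs (n + 1)).1 x h2 ?_
  rw [pow_succ, Module.End.mul_apply, hN, map_zero]

end

end Pool.Agent.Q173.OS
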