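import Pool.Agent.Q57.WM.Deg
import Pool.Agent.Y163.MW.Asm

/-!
# One-sided bounds for the weights of the inertia invariants: definitions
-/

set_option autoImplicit false

open Module TensorProduct

namespace Pool.Agent.Q173.OS

universe u v w

open Pool.Agent.Y143 Pool.Agent.Y163.MW Pool.Agent.H914

section

variable {Ω : Type w} [Field Ω] [CharZero Ω]

/-- Every eigenvalue of the Frobenius `F` on the kernel of `N` on `H^j` (the inertia invariants, if
inertia acts unipotently) has weight at most `j + B`. -/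
def InvBoundDeg (R : Coh.{v, w} Ω) (q j : ℕ) (B : ℤ) : Prop :=
  ∀ (α : Ω) (x : R.V), x ∈ R.gr j → x ≠ 0 → R.N x = 0 → R.F x = α • x →
    ∀ w : ℤ, IsWeilNumber q w α → w ≤ j + B

/-- The same for all degrees `j`. -/
def InvBound (R : Coh.{v, w} Ω) (q : ℕ) (B : ℤ) : Prop := ∀ j, InvBoundDeg R q j B

/-- The known properties of the cohomology of a curve or an abelian variety `E` whose reduction is
not potentially good, e.g. of a Tate curve: `H^0` contains an invariant element `≠ 0`, the cohomology
is mw pure, and `N ≠ 0`, `N ^ 2 = 0` on `H^1`. -/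
structure IsTest (R : Coh.{v, w} Ω) (q : ℕ) : Prop where
  unit : ∃ u ∈ R.gr 0, u ≠ 0 ∧ R.N u = 0 ∧ R.F u = u
  pure : ∀ i, R.MWPure q i
  ne : ∃ x ∈ R.gr 1, R.N x ≠ 0
  sq : ∀ x ∈ R.gr 1, R.N (R.N x) = 0

end

/-- The varieties `X × E^a`. -/
noncomputable def stack {K : Type u} [Field K] (X E : SmVar.{u} K) : ℕ → SmVar.{u} K
  | 0 => X
  | a + 1 => (stack X E a).prod E

end Pool.Agent.Q173.OS
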