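import Pool.Agent.Q173.OS.Main

/-!
# Transfer between cohomology theories by the poles of the local L-factors
-/

set_option autoImplicit false

open Module TensorProduct

namespace Pool.Agent.Q173.OS

universe u v w

open Pool.Agent.Y143 Pool.Agent.Y163.MW Pool.Agent.Y163.MW.Coh Pool.Agent.H914 Pool.Agent.Q57.WM

section

variable {Ω : Type w} [Field Ω] [CharZero Ω]

/-- `α` is an eigenvalue of the Frobenius `F` on the kernel of `N` on `H^j` (the inertia invariants, if
inertia acts unipotently), that is, the local `L`-factor `det (1 - F q^(-s) | Ker N)^(-1)` of `H^j` has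
a pole at the `s` with `q^s = α`. -/
def IsPole (R : Coh.{v, w} Ω) (j : ℕ) (α : Ω) : Prop :=
  ∃ x ∈ R.gr j, x ≠ 0 ∧ R.N x = 0 ∧ R.F x = α • x

/-- Every pole `s` of the local `L`-factor of `H^j`, for the theory `R`, with real part
`> (j + B) / 2` is also a pole for the theory `R'`, for all degrees `j`. -/
def PolesAmong (R R' : Coh.{v, w} Ω) (q : ℕ) (B : ℤ) : Prop :=
  ∀ (j : ℕ) (α : Ω), IsPole R j α → (∀ w : ℤ, IsWeilNumber q w α → j + B < w) → IsPole R' j α

variable {R R' : Coh.{v, w} Ω} {q : ℕ}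

lemma invBound_iff_pole {B : ℤ} : InvBound R q B ↔
    ∀ (j : ℕ) (α : Ω), IsPole R j α → ∀ w : ℤ, IsWeilNumber q w α → w ≤ j + B :=
  ⟨fun h j α ⟨x, hx, h0, hN, hF⟩ => h j α x hx h0 hN hF,
    fun h j α x hx h0 hN hF => h j α ⟨x, hx, h0, hN, hF⟩⟩

lemma PolesAmong.bound (hq : 1 < q) (hR : R.IsCoh q) {B : ℤ} (hB : 0 ≤ B)
    (h : PolesAmong R R' q B) (h' : InvBound R' q 0) : InvBound R q B := by
  intro j α x hx h0 hN hF w hw
  by_contra hcon
  push Not at hcon
  have h1 := h j α ⟨x, hx, h0, hN, hF⟩ fun w' hw' => by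
    rw [weil_unique hq hw' hw]
    exact hcon
  have h2 := invBound_iff_pole.1 h' j α h1 w hw
  omega

lemma polesAmong_of_bound {B : ℤ} (h : InvBound R q B) (hR : R.IsCoh q) :
    PolesAmong R R' q B := by
  rintro j α ⟨x, hx, h0, hN, hF⟩ h1
  obtain ⟨w, hw⟩ := hR.weil j α x hx h0 hF
  have := h j α x hx h0 hN hF w hw
  have := h1 w hw
  omega

end

section

variable {K : Type u} [Field K] {Ω : Type w} [Field Ω] [CharZero Ω] [IsAlgClosed Ω]
  {T T' : Theory.{u, v, w} K Ω} {q : ℕ}

theorem transfer_stack (hq : 1 < q) (hT : T.IsLocal q) (hT' : T'.IsLocal q) {X E : SmVar.{u} K}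
    (hE : IsTest (T.H E) q) (hE' : IsTest (T'.H E) q) {k : ℕ}
    (hk : ∀ m, WMAbove (T.H X) q m (k + 1)) (h' : ∀ m, (T'.H X).MWPure q m) (n : ℕ) :
    (∀ m, (T.H X).MWPure q m) ↔
      PolesAmong (T.H (pow (stack X E k) n)) (T'.H (pow (stack X E k) n)) q n := by
  constructor
  · intro h
    exact polesAmong_of_bound ((bound_stack hq hT hE h k n).mono (by omega)) (hT.coh _)
  · intro h m
    exact pure_of_stack hq hT hE (hk m) n fun a _ =>
      h.bound hq (hT.coh _) (by omega) (bound_stack hq hT' hE' h' k n) _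

theorem transfer_square (hq : 1 < q) (hT : T.IsLocal q) (hT' : T'.IsLocal q) {X : SmVar.{u} K}
    (h' : ∀ m, (T'.H X).MWPure q m) (n : ℕ) :
    (∀ m, (T.H X).MWPure q m) ↔
      PolesAmong (T.H (pow (X.prod X) n)) (T'.H (pow (X.prod X) n)) q (2 * n + 1) := by
  constructor
  · intro h
    exact polesAmong_of_bound ((bound_square hq hT h n).mono (by omega)) (hT.coh _)
  · intro h m
    exact pure_of_square hq hT n (h.bound hq (hT.coh _) (by omega) (bound_square hq hT' h' n) _)

end

end Pool.Agent.Q173.OS
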