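import Pool.Agent.Q173.OS.Defs

/-!
# Vectors in the kernel of `N` on tensor products
-/

set_option autoImplicit false

open Module TensorProduct

namespace Pool.Agent.Q173.OS

universe u v w

open Pool.Agent.Y143 Pool.Agent.Y163.MW Pool.Agent.Y163.MW.Coh Pool.Agent.Y136.UB

section lin

variable {Ω : Type w} [Field Ω] {V V' : Type v} [AddCommGroup V] [Module Ω V] [AddCommGroup V']
  [Module Ω V']

/-- The tensor product of nonzero vectors is not zero. -/
lemma tmul_ne_zero' {x : V} {y : V'} (hx : x ≠ 0) (hy : y ≠ 0) : x ⊗ₜ[Ω] y ≠ 0 := by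
  obtain ⟨f, hf⟩ : ∃ f : Module.Dual Ω V, f x ≠ 0 := by
    by_contra hcon
    push Not at hcon
    exact hx ((Module.forall_dual_apply_eq_zero_iff Ω x).1 hcon)
  obtain ⟨g, hg⟩ : ∃ g : Module.Dual Ω V', g y ≠ 0 := by
    by_contra hcon
    push Not at hcon
    exact hy ((Module.forall_dual_apply_eq_zero_iff Ω y).1 hcon)
  intro h
  have h1 := congrArg (LinearMap.mul' Ω Ω ∘ₗ TensorProduct.map f g) h
  rw [map_zero, LinearMap.comp_apply, TensorProduct.map_tmul, LinearMap.mul'_apply] at h1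
  exact mul_ne_zero hf hg h1

/-- The operator `N ⊗ 1 + 1 ⊗ N'`. -/
noncomputable def der (N : Module.End Ω V) (N' : Module.End Ω V') : Module.End Ω (V ⊗[Ω] V') :=
  TensorProduct.map N LinearMap.id + TensorProduct.map LinearMap.id N'

lemma der_tmul (N : Module.End Ω V) (N' : Module.End Ω V') (x : V) (y : V') :
    der N N' (x ⊗ₜ y) = N x ⊗ₜ y + x ⊗ₜ N' y := by
  simp [der]

lemma der_pow_ker (N : Module.End Ω V) (N' : Module.End Ω V') (k : ℕ) (x : V) {y : V'}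
    (hy : N' y = 0) : (der N N' ^ k) (x ⊗ₜ y) = (N ^ k) x ⊗ₜ y := by
  induction k with
  | zero => simp
  | succ k ih =>
    rw [pow_succ', Module.End.mul_apply, ih, der_tmul, hy, tmul_zero, add_zero, pow_succ',
      Module.End.mul_apply]

lemma der_pow_two (N : Module.End Ω V) (N' : Module.End Ω V') (k : ℕ) (x : V) {y : V'}
    (hy : N' (N' y) = 0) : (der N N' ^ k) (N x ⊗ₜ y) =
      (N ^ (k + 1)) x ⊗ₜ y + (k : Ω) • ((N ^ k) x ⊗ₜ N' y) := by
  induction k with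
  | zero => simp
  | succ k ih =>
    rw [pow_succ', Module.End.mul_apply, ih, map_add, map_smul, der_tmul, der_tmul, hy, tmul_zero,
      add_zero, ← Module.End.mul_apply, ← pow_succ', ← Module.End.mul_apply, ← pow_succ']
    push_cast
    rw [add_smul, one_smul]
    abel

/-- The vector `(l + 1) v ⊗ N u - N v ⊗ u`. -/
lemma down_vec {N : Module.End Ω V} {N' : Module.End Ω V'} {l : ℕ} {v : V} {u : V'}
    (h0 : (N ^ (l + 2)) v = 0) (h1 : (N ^ (l + 1)) v ≠ 0) (hu : N' (N' u) = 0) (hu0 : N' u ≠ 0) :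
    (der N N' ^ (l + 1)) (((l + 1 : ℕ) : Ω) • (v ⊗ₜ N' u) - N v ⊗ₜ u) = 0 ∧
      (der N N' ^ l) (((l + 1 : ℕ) : Ω) • (v ⊗ₜ N' u) - N v ⊗ₜ u) ≠ 0 := by
  constructor
  · rw [map_sub, map_smul, der_pow_ker _ _ _ _ hu, der_pow_two _ _ _ _ hu, h0, zero_tmul, zero_add,
      sub_self]
  · rw [map_sub, map_smul, der_pow_ker _ _ _ _ hu, der_pow_two _ _ _ _ hu]
    intro h
    have h2 := congrArg (TensorProduct.map LinearMap.id N') h
    rw [map_zero, map_sub, map_smul, map_add, map_smul, TensorProduct.map_tmul,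
      TensorProduct.map_tmul, LinearMap.id_apply, LinearMap.id_apply, hu, tmul_zero, smul_zero,
      smul_zero, add_zero, zero_sub, neg_eq_zero] at h2
    exact tmul_ne_zero' h1 hu0 h2

/-- The vector `∑ (-1)^i N^i v ⊗ ψ (N^(l - i) v)`. -/
lemma pair_vec {N : Module.End Ω V} {N' : Module.End Ω V'} {l : ℕ} {v : V}
    (h0 : (N ^ (l + 1)) v = 0) (h1 : (N ^ l) v ≠ 0) (ψ : V →ₗ[Ω] V') (hψ : ∀ x, ψ (N x) = N' (ψ x))
    (h2 : ψ ((N ^ l) v) ≠ 0) :
    der N N' (∑ i ∈ Finset.range (l + 1), (-1 : Ω) ^ i • ((N ^ i) v ⊗ₜ ψ ((N ^ (l - i)) v))) = 0 ∧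
      (∑ i ∈ Finset.range (l + 1), (-1 : Ω) ^ i • ((N ^ i) v ⊗ₜ[Ω] ψ ((N ^ (l - i)) v))) ≠ 0 := by
  constructor
  · rw [map_sum]
    have e : ∀ i ∈ Finset.range (l + 1), der N N' ((-1 : Ω) ^ i •
        ((N ^ i) v ⊗ₜ ψ ((N ^ (l - i)) v))) =
        (-1 : Ω) ^ i • ((N ^ i) v ⊗ₜ ψ ((N ^ (l + 1 - i)) v)) -
        (-1 : Ω) ^ (i + 1) • ((N ^ (i + 1)) v ⊗ₜ ψ ((N ^ (l + 1 - (i + 1))) v)) := by
      intro i hi
      rw [Finset.mem_range] at hi
      rw [map_smul, der_tmul, ← hψ, ← Module.End.mul_apply, ← pow_succ', ← Module.End.mul_apply,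
        ← pow_succ', show l + 1 - (i + 1) = l - i by omega, show l - i + 1 = l + 1 - i by omega,
        pow_succ (-1 : Ω) i, mul_neg_one, neg_smul, sub_neg_eq_add, smul_add, add_comm]
    rw [Finset.sum_congr rfl e, Finset.sum_range_sub', h0, zero_tmul, smul_zero, sub_zero,
      pow_zero, one_smul, Nat.sub_zero, h0, map_zero, tmul_zero]
  · intro h
    have h3 := congrArg (TensorProduct.map (N ^ l) LinearMap.id) h
    rw [map_zero, map_sum, Finset.sum_eq_single 0] at h3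
    · rw [pow_zero, one_smul, pow_zero, Module.End.one_apply, Nat.sub_zero,
        TensorProduct.map_tmul, LinearMap.id_apply] at h3
      exact tmul_ne_zero' h1 h2 h3
    · intro i _ hi
      rw [map_smul, TensorProduct.map_tmul, ← Module.End.mul_apply, ← pow_add]
      have : (N ^ (l + i)) v = 0 := by
        obtain ⟨j, hj⟩ : ∃ j, l + i = j + (l + 1) := ⟨i - 1, by omega⟩
        rw [hj, pow_add, Module.End.mul_apply, h0, map_zero]
      rw [this, zero_tmul, smul_zero]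
    · intro hn
      exact absurd (Finset.mem_range.2 (Nat.succ_pos l)) hn

end lin

section

variable {Ω : Type w} [Field Ω] [CharZero Ω] {R R' R'' : Coh.{v, w} Ω} {q : ℕ}

/-- The Künneth isomorphism respects degrees and weights. -/
lemma kunneth_exc (hq : 0 < q) {κ : R.V ⊗[Ω] R'.V ≃ₗ[Ω] R''.V} (hκ : IsKunneth R R' R'' κ)
    {m n : ℕ} {c c' : ℤ} {x : R.V} {y : R'.V} (hx : x ∈ R.exc q m c) (hy : y ∈ R'.exc q n c') :
    κ (x ⊗ₜ y) ∈ R''.exc q (m + n) (c + c') := by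
  have h1 : R.exc q m c ≤ (R''.exc q (m + n) (c + c')).comap
      (κ.toLinearMap ∘ₗ (TensorProduct.mk Ω R.V R'.V).flip y) := by
    refine iSup₂_le fun α hα z hz => ?_
    have h3 : R'.exc q n c' ≤ (R''.exc q (m + n) (c + c')).comap
        (κ.toLinearMap ∘ₗ (TensorProduct.mk Ω R.V R'.V) z) := by
      refine iSup₂_le fun β hβ t ht => ?_
      obtain ⟨hz1, hz2⟩ := Submodule.mem_inf.1 hz
      obtain ⟨ht1, ht2⟩ := Submodule.mem_inf.1 ht
      have h4 := weil_mul hq hα hβ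
      rw [show (m : ℤ) + c + (n + c') = ((m + n : ℕ) : ℤ) + (c + c') by push_cast; ring] at h4
      refine Submodule.mem_iSup_of_mem _ (Submodule.mem_iSup_of_mem h4 ?_)
      refine Submodule.mem_inf.2 ⟨hκ.degree m n z t hz1 ht1, ?_⟩
      have h5 := gen_tmul hz2 ht2
      refine gen_map κ.toLinearMap (fun v => ?_) h5
      induction v using TensorProduct.induction_on with
      | zero => simp
      | tmul a b => exact hκ.frob a b
      | add a b ha hb => rw [map_add, map_add, map_add, map_add, ha, hb]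
    exact h3 hy
  exact h1 hx

lemma kunneth_N {κ : R.V ⊗[Ω] R'.V ≃ₗ[Ω] R''.V} (hκ : IsKunneth R R' R'' κ) (t : R.V ⊗[Ω] R'.V) :
    R''.N (κ t) = κ (der R.N R'.N t) := by
  induction t using TensorProduct.induction_on with
  | zero => simp
  | tmul x y =>
    rw [der_tmul, map_add]
    exact hκ.monodromy x y
  | add x y hx hy => rw [map_add, map_add, map_add, map_add, hx, hy]

lemma kunneth_Npow {κ : R.V ⊗[Ω] R'.V ≃ₗ[Ω] R''.V} (hκ : IsKunneth R R' R'' κ) (k : ℕ)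
    (t : R.V ⊗[Ω] R'.V) : (R''.N ^ k) (κ t) = κ ((der R.N R'.N ^ k) t) := by
  induction k with
  | zero => simp
  | succ k ih =>
    rw [pow_succ', Module.End.mul_apply, ih, kunneth_N hκ, pow_succ', Module.End.mul_apply]

/-- `H^j` contains a vector of excess `c + l` (the weight of which is `j + c + l`) which generates a
string of length `l`. -/
def HasString (R : Coh.{v, w} Ω) (q j : ℕ) (c : ℤ) (l : ℕ) : Prop :=
  ∃ v ∈ R.exc q j (c + l), (R.N ^ (l + 1)) v = 0 ∧ (R.N ^ l) v ≠ 0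

lemma HasString.down (hq : 1 < q) (hR : R.IsCoh q) {κ : R.V ⊗[Ω] R'.V ≃ₗ[Ω] R''.V}
    (hκ : IsKunneth R R' R'' κ) {j : ℕ} {c : ℤ} {l : ℕ} (h : HasString R q j c (l + 1)) {u : R'.V}
    (hu : u ∈ R'.exc q 1 1) (hu1 : R'.N u ∈ R'.exc q 1 (-1)) (hu0 : R'.N u ≠ 0)
    (hu2 : R'.N (R'.N u) = 0) : HasString R'' q (j + 1) c l := by
  obtain ⟨v, hv, h0, h1⟩ := h
  obtain ⟨h2, h3⟩ := down_vec h0 h1 hu2 hu0
  refine ⟨κ (((l + 1 : ℕ) : Ω) • (v ⊗ₜ R'.N u) - R.N v ⊗ₜ u), ?_, ?_, ?_⟩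
  · rw [map_sub, map_smul]
    refine Submodule.sub_mem _ (Submodule.smul_mem _ _ ?_) ?_
    · have := kunneth_exc (by omega) hκ hv hu1
      rwa [show c + ((l + 1 : ℕ) : ℤ) + -1 = c + l by push_cast; ring] at this
    · have := kunneth_exc (by omega) hκ (N_exc hq hR j _ v hv) hu
      rwa [show c + ((l + 1 : ℕ) : ℤ) - 2 + 1 = c + l by push_cast; ring] at this
  · rw [kunneth_Npow hκ, h2, map_zero]
  · rw [kunneth_Npow hκ]
    intro h4
    exact h3 (κ.map_eq_zero_iff.1 h4)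

lemma HasString.keep (hq : 1 < q) {κ : R.V ⊗[Ω] R'.V ≃ₗ[Ω] R''.V}
    (hκ : IsKunneth R R' R'' κ) {j : ℕ} {c : ℤ} {l : ℕ} (h : HasString R q j c l) {u : R'.V}
    {i : ℕ} {c' : ℤ} (hu : u ∈ R'.exc q i c') (hu0 : u ≠ 0) (hu1 : R'.N u = 0) :
    HasString R'' q (j + i) (c + c') l := by
  obtain ⟨v, hv, h0, h1⟩ := h
  refine ⟨κ (v ⊗ₜ u), ?_, ?_, ?_⟩
  · have := kunneth_exc (by omega) hκ hv hu
    rwa [show c + (l : ℤ) + c' = c + c' + l by ring] at this
  · rw [kunneth_Npow hκ, der_pow_ker _ _ _ _ hu1, h0, zero_tmul, map_zero]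
  · rw [kunneth_Npow hκ, der_pow_ker _ _ _ _ hu1]
    intro h4
    exact tmul_ne_zero' h1 hu0 (κ.map_eq_zero_iff.1 h4)

lemma HasString.square (hq : 1 < q) (hR : R.IsCoh q) {κ : R.V ⊗[Ω] R.V ≃ₗ[Ω] R''.V}
    (hκ : IsKunneth R R R'' κ) {j : ℕ} {c : ℤ} {l : ℕ} (h : HasString R q j c l) :
    HasString R'' q (j + j) (c + c) 0 := by
  obtain ⟨v, hv, h0, h1⟩ := h
  obtain ⟨h2, h3⟩ := pair_vec (N' := R.N) h0 h1 LinearMap.id (fun _ => rfl) h1
  have hNk : ∀ k : ℕ, (R.N ^ k) v ∈ R.exc q j (c + l - 2 * k) := by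
    intro k
    induction k with
    | zero => simpa using hv
    | succ k ih =>
      rw [pow_succ', Module.End.mul_apply]
      have := N_exc hq hR j _ _ ih
      rwa [show c + (l : ℤ) - 2 * (k : ℤ) - 2 = c + l - 2 * ((k + 1 : ℕ) : ℤ) by
        push_cast; ring] at this
  refine ⟨κ (∑ i ∈ Finset.range (l + 1), (-1 : Ω) ^ i •
    ((R.N ^ i) v ⊗ₜ[Ω] (LinearMap.id : R.V →ₗ[Ω] R.V) ((R.N ^ (l - i)) v))), ?_, ?_, ?_⟩
  rotate_left 1
  · rw [kunneth_Npow hκ, zero_add, pow_one, h2, map_zero]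
  · rw [pow_zero, Module.End.one_apply]
    exact fun h4 => h3 (κ.map_eq_zero_iff.1 h4)
  · rw [map_sum]
    refine Submodule.sum_mem _ fun i hi => ?_
    rw [Finset.mem_range] at hi
    rw [map_smul]
    refine Submodule.smul_mem _ _ ?_
    have := kunneth_exc (by omega) hκ (hNk i) (hNk (l - i))
    rw [LinearMap.id_apply]
    rwa [show c + (l : ℤ) - 2 * (i : ℤ) + (c + l - 2 * ((l - i : ℕ) : ℤ)) = c + c + ((0 : ℕ) : ℤ) by
      push_cast [Nat.cast_sub (by omega : i ≤ l)]; ring] at this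

end

end Pool.Agent.Q173.OS
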